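import Mathlib

/-!
Library R509.ET (helper509): covering numbers at dyadic scales and the additive energy.
-/

set_option autoImplicit false

namespace Pool.Agent.R509.ET

open Finset

/-- a dyadic form of Hardy's inequality -/
lemma hardy (D : ℤ → ℝ) (I : ℕ) :
    ∑ i ∈ range (I + 1), (∑ d ∈ Ioo (-(2 : ℤ) ^ i) (2 ^ i), D d) ^ 2 / 2 ^ i ≤
      12 * ∑ d ∈ Ioo (-(2 : ℤ) ^ I) (2 ^ I), D d ^ 2 := by
  have key : ∀ I : ℕ, ∑ i ∈ range (I + 1), (∑ d ∈ Ioo (-(2 : ℤ) ^ i) (2 ^ i), D d) ^ 2 / 2 ^ i +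
      3 * ((∑ d ∈ Ioo (-(2 : ℤ) ^ I) (2 ^ I), D d) ^ 2 / 2 ^ I) ≤
      12 * ∑ d ∈ Ioo (-(2 : ℤ) ^ I) (2 ^ I), D d ^ 2 := by
    intro I
    induction I with
    | zero =>
      have h0 : Ioo (-(2 : ℤ) ^ 0) (2 ^ 0) = {0} := by
        ext d
        rw [mem_Ioo, mem_singleton]
        norm_num
        omega
      rw [sum_range_one, h0, sum_singleton, sum_singleton]
      norm_num
      nlinarith [sq_nonneg (D 0)]
    | succ I ih =>
      rw [sum_range_succ]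
      set M := ∑ d ∈ Ioo (-(2 : ℤ) ^ I) (2 ^ I), D d with hM
      set En := ∑ d ∈ Ioo (-(2 : ℤ) ^ I) (2 ^ I), D d ^ 2 with hEn
      have h2 : (0 : ℤ) < 2 ^ I := by positivity
      have h2s : (2 : ℤ) ^ (I + 1) = 2 * 2 ^ I := by ring
      have hsub : Ioo (-(2 : ℤ) ^ I) (2 ^ I) ⊆ Ioo (-(2 : ℤ) ^ (I + 1)) (2 ^ (I + 1)) := by
        intro d hd
        rw [mem_Ioo] at hd ⊢
        omega
      set An := Ioo (-(2 : ℤ) ^ (I + 1)) (2 ^ (I + 1)) \ Ioo (-(2 : ℤ) ^ I) (2 ^ I) with hAn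
      have hcard : (An.card : ℝ) = 2 ^ (I + 1) := by
        rw [hAn, card_sdiff_of_subset hsub, Int.card_Ioo, Int.card_Ioo]
        have h3 : ((2 : ℤ) ^ (I + 1) - -2 ^ (I + 1) - 1).toNat - ((2 : ℤ) ^ I - -2 ^ I - 1).toNat = 2 ^ (I + 1) := by
          have h4 : ((2 ^ (I + 1) : ℕ) : ℤ) = 2 * 2 ^ I := by push_cast; ring
          have h5 : ((2 ^ I : ℕ) : ℤ) = 2 ^ I := by push_cast; ring
          omega
        rw [h3]
        push_cast
        ring
      have hsum1 : ∑ d ∈ Ioo (-(2 : ℤ) ^ (I + 1)) (2 ^ (I + 1)), D d = M + ∑ d ∈ An, D d := by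
        exact (sum_sdiff hsub).symm.trans (add_comm _ _)
      have hsum2 : ∑ d ∈ Ioo (-(2 : ℤ) ^ (I + 1)) (2 ^ (I + 1)), D d ^ 2 = En + ∑ d ∈ An, D d ^ 2 := by
        exact (sum_sdiff hsub).symm.trans (add_comm _ _)
      have hcs : (∑ d ∈ An, D d) ^ 2 ≤ 2 ^ (I + 1) * ∑ d ∈ An, D d ^ 2 := by
        rw [← hcard]
        exact sq_sum_le_card_mul_sum_sq
      rw [hsum1, hsum2]
      set b := ∑ d ∈ An, D d with hb
      set e := ∑ d ∈ An, D d ^ 2 with he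
      have hp : (0 : ℝ) < 2 ^ I := by positivity
      have h6 : (M + b) ^ 2 / 2 ^ (I + 1) ≤ 3 / 4 * (M ^ 2 / 2 ^ I) + 3 * e := by
        rw [div_le_iff₀ (by positivity)]
        have h7 : (3 / 4 * (M ^ 2 / 2 ^ I) + 3 * e) * 2 ^ (I + 1) = 3 / 2 * M ^ 2 + 3 * (2 ^ (I + 1) * e) := by
          rw [pow_succ]
          field_simp
          ring
        rw [h7]
        nlinarith [sq_nonneg (M - 2 * b)]
      linarith
  have h1 := key I
  have h2 : 0 ≤ 3 * ((∑ d ∈ Ioo (-(2 : ℤ) ^ I) (2 ^ I), D d) ^ 2 / 2 ^ I) := by positivity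
  linarith

/-- the number of pairs with a given difference -/
noncomputable def dif (S : Finset ℕ) (d : ℤ) : ℝ := (((S ×ˢ S).filter (fun p => (p.1 : ℤ) - p.2 = d)).card : ℝ)

/-- the dyadic covering numbers -/
def box (S : Finset ℕ) (i : ℕ) : ℕ := (S.image (fun a => a / 2 ^ i)).card

lemma box_le (S : Finset ℕ) (i : ℕ) :
    (S.card : ℝ) ^ 2 ≤ box S i * ∑ d ∈ Ioo (-(2 : ℤ) ^ i) (2 ^ i), dif S d := by
  set B := S.image (fun a => a / 2 ^ i) with hB
  set c : ℕ → ℝ := fun j => ((S.filter (fun a => a / 2 ^ i = j)).card : ℝ) with hc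
  have h1 : (S.card : ℝ) = ∑ j ∈ B, c j := by
    have := card_eq_sum_card_fiberwise (f := fun a => a / 2 ^ i) (s := S) (t := B) (fun a ha => mem_image_of_mem _ ha)
    rw [this]
    push_cast
    rfl
  have h2 : (∑ j ∈ B, c j) ^ 2 ≤ B.card * ∑ j ∈ B, c j ^ 2 := sq_sum_le_card_mul_sum_sq
  have h3 : ∑ j ∈ B, c j ^ 2 ≤ ∑ d ∈ Ioo (-(2 : ℤ) ^ i) (2 ^ i), dif S d := by
    have e1 : ∀ j ∈ B, c j ^ 2 = (((S ×ˢ S).filter (fun p => p.1 / 2 ^ i = j ∧ p.2 / 2 ^ i = j)).card : ℝ) := by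
      intro j _
      have : (S ×ˢ S).filter (fun p => p.1 / 2 ^ i = j ∧ p.2 / 2 ^ i = j) =
          (S.filter (fun a => a / 2 ^ i = j)) ×ˢ (S.filter (fun a => a / 2 ^ i = j)) := by
        ext p
        simp only [mem_filter, mem_product]
        tauto
      rw [this, card_product, hc]
      push_cast
      ring
    rw [sum_congr rfl e1]
    have e2 : ∑ d ∈ Ioo (-(2 : ℤ) ^ i) (2 ^ i), dif S d =
        (((S ×ˢ S).filter (fun p => (p.1 : ℤ) - p.2 ∈ Ioo (-(2 : ℤ) ^ i) (2 ^ i))).card : ℝ) := by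
      rw [card_eq_sum_card_fiberwise (f := fun p : ℕ × ℕ => (p.1 : ℤ) - p.2) (t := Ioo (-(2 : ℤ) ^ i) (2 ^ i))
        (s := (S ×ˢ S).filter (fun p => (p.1 : ℤ) - p.2 ∈ Ioo (-(2 : ℤ) ^ i) (2 ^ i))) (fun p hp => (mem_filter.1 hp).2)]
      push_cast
      apply sum_congr rfl
      intro d hd
      unfold dif
      congr 2
      ext p
      simp only [mem_filter, mem_product]
      constructor
      · rintro ⟨h, h'⟩
        exact ⟨⟨h, by rw [h']; exact hd⟩, h'⟩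
      · rintro ⟨⟨h, _⟩, h'⟩
        exact ⟨h, h'⟩
    rw [e2]
    have e3 : ∑ j ∈ B, ((S ×ˢ S).filter (fun p => p.1 / 2 ^ i = j ∧ p.2 / 2 ^ i = j)).card =
        ((S ×ˢ S).filter (fun p => p.1 / 2 ^ i = p.2 / 2 ^ i)).card := by
      rw [card_eq_sum_card_fiberwise (f := fun p : ℕ × ℕ => p.1 / 2 ^ i) (t := B) (s := (S ×ˢ S).filter (fun p => p.1 / 2 ^ i = p.2 / 2 ^ i))
        (fun p hp => mem_image_of_mem _ (mem_product.1 (mem_filter.1 hp).1).1)]
      apply sum_congr rfl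
      intro j _
      congr 1
      ext p
      simp only [mem_filter, mem_product]
      constructor
      · rintro ⟨h, h', h''⟩
        exact ⟨⟨h, by rw [h', h'']⟩, h'⟩
      · rintro ⟨⟨h, h'⟩, h''⟩
        exact ⟨h, h'', by rw [← h', h'']⟩
    have e4 : ((S ×ˢ S).filter (fun p => p.1 / 2 ^ i = p.2 / 2 ^ i)).card ≤
        ((S ×ˢ S).filter (fun p => (p.1 : ℤ) - p.2 ∈ Ioo (-(2 : ℤ) ^ i) (2 ^ i))).card := by
      apply card_le_card
      intro p hp
      rw [mem_filter] at hp ⊢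
      refine ⟨hp.1, ?_⟩
      rw [mem_Ioo]
      have hp2 : 0 < 2 ^ i := by positivity
      have h4 := Nat.div_add_mod p.1 (2 ^ i)
      have h5 := Nat.div_add_mod p.2 (2 ^ i)
      have h6 := Nat.mod_lt p.1 hp2
      have h7 := Nat.mod_lt p.2 hp2
      rw [hp.2] at h4
      have h8 : ((2 ^ i : ℕ) : ℤ) = 2 ^ i := by push_cast; ring
      constructor <;> omega
    exact_mod_cast (le_of_eq e3).trans e4
  calc (S.card : ℝ) ^ 2 = (∑ j ∈ B, c j) ^ 2 := by rw [h1]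
    _ ≤ B.card * ∑ j ∈ B, c j ^ 2 := h2
    _ ≤ _ := mul_le_mul_of_nonneg_left h3 (Nat.cast_nonneg _)

/-- the energy bound -/
lemma energy_le (S : Finset ℕ) (R : ℕ) (hR : ∀ n, ((S ×ˢ S).filter (fun p => p.1 + p.2 = n)).card ≤ R) (F : Finset ℤ) :
    ∑ d ∈ F, dif S d ^ 2 ≤ R * (S.card : ℝ) ^ 2 := by
  set Q := ((S ×ˢ S) ×ˢ (S ×ˢ S)).filter (fun q => (q.1.1 : ℤ) - q.1.2 = (q.2.1 : ℤ) - q.2.2) with hQ
  have h1 : ∑ d ∈ F, dif S d ^ 2 ≤ Q.card := by
    have e1 : ∀ d ∈ F, dif S d ^ 2 = ((Q.filter (fun q => (q.1.1 : ℤ) - q.1.2 = d)).card : ℝ) := by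
      intro d _
      have : Q.filter (fun q => (q.1.1 : ℤ) - q.1.2 = d) =
          ((S ×ˢ S).filter (fun p => (p.1 : ℤ) - p.2 = d)) ×ˢ ((S ×ˢ S).filter (fun p => (p.1 : ℤ) - p.2 = d)) := by
        ext q
        simp only [hQ, mem_filter, mem_product]
        constructor
        · rintro ⟨⟨⟨h1, h2⟩, h3⟩, h4⟩
          exact ⟨⟨h1, h4⟩, h2, by rw [← h3, h4]⟩
        · rintro ⟨⟨h1, h4⟩, h2, h5⟩
          exact ⟨⟨⟨h1, h2⟩, by rw [h4, h5]⟩, h4⟩
      rw [this, card_product]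
      unfold dif
      push_cast
      ring
    rw [sum_congr rfl e1]
    have e2 : ∑ d ∈ F, (Q.filter (fun q => (q.1.1 : ℤ) - q.1.2 = d)).card ≤ Q.card := by
      have e3 := card_eq_sum_card_fiberwise (f := fun q : (ℕ × ℕ) × (ℕ × ℕ) => (q.1.1 : ℤ) - q.1.2) (t := F)
        (s := Q.filter (fun q => (q.1.1 : ℤ) - q.1.2 ∈ F)) (fun q hq => (mem_filter.1 hq).2)
      refine le_trans (le_of_eq ?_) (card_filter_le Q (fun q => (q.1.1 : ℤ) - q.1.2 ∈ F))
      rw [e3]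
      apply sum_congr rfl
      intro d hd
      congr 1
      ext q
      simp only [mem_filter]
      constructor
      · rintro ⟨h, h'⟩
        exact ⟨⟨h, by rw [h']; exact hd⟩, h'⟩
      · rintro ⟨⟨h, _⟩, h'⟩
        exact ⟨h, h'⟩
    exact_mod_cast e2
  have h2 : Q.card ≤ (S.card * S.card) * R := by
    rw [card_eq_sum_card_fiberwise (f := fun q : (ℕ × ℕ) × (ℕ × ℕ) => (q.1.1, q.2.2)) (t := S ×ˢ S)
      (fun q hq => by
        rw [hQ] at hq
        simp only [coe_filter, mem_product, Set.mem_ofPred_eq] at hq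
        simp only [coe_product, Set.mem_prod, mem_coe]
        exact ⟨hq.1.1.1, hq.1.2.2⟩)]
    rw [← card_product, ← smul_eq_mul]
    apply sum_le_card_nsmul
    intro p _
    refine le_trans ?_ (hR (p.1 + p.2))
    apply card_le_card_of_injOn (fun q => (q.2.1, q.1.2))
    · intro q hq
      simp only [hQ, coe_filter, mem_filter, mem_product, Set.mem_ofPred_eq] at hq ⊢
      obtain ⟨⟨⟨⟨h1, h2⟩, h3, h4⟩, h5⟩, h6⟩ := hq
      refine ⟨⟨h3, h2⟩, ?_⟩
      rw [← h6]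
      simp only
      omega
    · intro q hq q' hq' h
      simp only [hQ, coe_filter, mem_filter, mem_product, Set.mem_ofPred_eq] at hq hq'
      have h6 := hq.2
      have h7 := hq'.2
      rw [Prod.mk.injEq] at h
      have h8 := congrArg Prod.fst (h6.trans h7.symm)
      have h9 := congrArg Prod.snd (h6.trans h7.symm)
      simp only at h8 h9
      exact Prod.ext (Prod.ext h8 h.2) (Prod.ext h.1 h9)
  have h3 : (Q.card : ℝ) ≤ R * (S.card : ℝ) ^ 2 := by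
    have : (Q.card : ℝ) ≤ ((S.card * S.card) * R : ℕ) := by exact_mod_cast h2
    refine this.trans (le_of_eq ?_)
    push_cast
    ring
  exact h1.trans h3

/-- **covering numbers and representations** -/
theorem cover (S : Finset ℕ) (R : ℕ) (hR : ∀ n, ((S ×ˢ S).filter (fun p => p.1 + p.2 = n)).card ≤ R) (I : ℕ) :
    ∑ i ∈ range (I + 1), (S.card : ℝ) ^ 2 / ((2 : ℝ) ^ i * (box S i : ℝ) ^ 2) ≤ 12 * R := by
  rcases Nat.eq_zero_or_pos S.card with h0 | h0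
  · rw [h0]
    have : ∀ i ∈ range (I + 1), ((0 : ℕ) : ℝ) ^ 2 / ((2 : ℝ) ^ i * (box S i : ℝ) ^ 2) = 0 := by
      intro i _
      norm_num
    rw [sum_congr rfl this, sum_const_zero]
    positivity
  · have hS0 : (0 : ℝ) < S.card := by exact_mod_cast h0
    have h1 := hardy (dif S) I
    have h2 := energy_le S R hR (Ioo (-(2 : ℤ) ^ I) (2 ^ I))
    have h3 : ∀ i ∈ range (I + 1), (S.card : ℝ) ^ 2 * ((S.card : ℝ) ^ 2 / ((2 : ℝ) ^ i * (box S i : ℝ) ^ 2)) ≤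
        (∑ d ∈ Ioo (-(2 : ℤ) ^ i) (2 ^ i), dif S d) ^ 2 / 2 ^ i := by
      intro i _
      have h4 := box_le S i
      have h5 : 0 < box S i := by
        unfold box
        rw [card_pos]
        exact (card_pos.1 h0).image _
      have h6 : (0 : ℝ) < box S i := by exact_mod_cast h5
      set M := ∑ d ∈ Ioo (-(2 : ℤ) ^ i) (2 ^ i), dif S d
      rw [le_div_iff₀ (by positivity)]
      have h7 : (S.card : ℝ) ^ 2 * ((S.card : ℝ) ^ 2 / ((2 : ℝ) ^ i * (box S i : ℝ) ^ 2)) * 2 ^ i = ((S.card : ℝ) ^ 2 / box S i) ^ 2 := by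
        field_simp
      rw [h7]
      apply pow_le_pow_left₀ (by positivity)
      rw [div_le_iff₀ h6]
      linarith
    have h4 := sum_le_sum h3
    rw [← mul_sum] at h4
    have h5 : (S.card : ℝ) ^ 2 * ∑ i ∈ range (I + 1), (S.card : ℝ) ^ 2 / ((2 : ℝ) ^ i * (box S i : ℝ) ^ 2) ≤ (S.card : ℝ) ^ 2 * (12 * R) := by
      linarith
    exact le_of_mul_le_mul_left h5 (by positivity)

end Pool.Agent.R509.ET
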