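import Pool.Agent.R509.ET.Cov

/-!
Library R509.ET (helper509): covering numbers and representation functions.
-/

set_option autoImplicit false

namespace Pool.Agent.R509.ET

open Finset Filter

/-- `r_A(n)` -/
noncomputable def rep (A : Set ℕ) (n : ℕ) : ℕ := {p : ℕ × ℕ | p.1 ∈ A ∧ p.2 ∈ A ∧ p.1 + p.2 = n}.ncard

open Classical in
/-- the elements below `x` -/
noncomputable def up (A : Set ℕ) (x : ℕ) : Finset ℕ := (range x).filter (fun a => a ∈ A)

lemma mem_up (A : Set ℕ) (x a : ℕ) : a ∈ up A x ↔ a < x ∧ a ∈ A := by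
  classical
  simp only [up, mem_filter, mem_range]

lemma rep_fin (A : Set ℕ) (n : ℕ) : {p : ℕ × ℕ | p.1 ∈ A ∧ p.2 ∈ A ∧ p.1 + p.2 = n}.Finite := by
  apply Set.Finite.subset ((range (n + 1) ×ˢ range (n + 1)).finite_toSet)
  rintro ⟨a, b⟩ ⟨_, _, h⟩
  simp only at h
  simp only [coe_product, Set.mem_prod, mem_coe, mem_range]
  omega

lemma up_rep (A : Set ℕ) (x n : ℕ) : (((up A x) ×ˢ (up A x)).filter (fun p => p.1 + p.2 = n)).card ≤ rep A n := by
  unfold rep
  rw [← Set.ncard_coe_finset]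
  apply Set.ncard_le_ncard _ (rep_fin A n)
  intro p hp
  rw [mem_coe, mem_filter, mem_product, mem_up, mem_up] at hp
  exact ⟨hp.1.1.2, hp.1.2.2, hp.2⟩

/-- the first part -/
theorem part1 (A : Set ℕ) (x I R : ℕ) (hR : ∀ n < 2 * x, rep A n ≤ R) :
    ∑ i ∈ range (I + 1), ((up A x).card : ℝ) ^ 2 / ((2 : ℝ) ^ i * (box (up A x) i : ℝ) ^ 2) ≤ 12 * R := by
  apply cover
  intro n
  rcases lt_or_ge n (2 * x) with h | h
  · exact (up_rep A x n).trans (hR n h)
  · have : ((up A x) ×ˢ (up A x)).filter (fun p => p.1 + p.2 = n) = ∅ := by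
      rw [filter_eq_empty_iff]
      intro p hp
      rw [mem_product, mem_up, mem_up] at hp
      omega
    rw [this, card_empty]
    exact Nat.zero_le _

lemma grow1 (A : Set ℕ) (h : ∀ᶠ n in atTop, 1 ≤ rep A n) : ∃ c : ℝ, 0 < c ∧ ∀ᶠ x : ℕ in atTop, c * x ≤ ((up A x).card : ℝ) ^ 2 := by
  obtain ⟨n₀, hn₀⟩ := eventually_atTop.1 h
  refine ⟨1 / 2, by norm_num, eventually_atTop.2 ⟨2 * n₀, fun x hx => ?_⟩⟩
  have h1 : Ico n₀ x ⊆ ((up A x) ×ˢ (up A x)).image (fun p => p.1 + p.2) := by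
    intro n hn
    rw [mem_Ico] at hn
    have h2 : {p : ℕ × ℕ | p.1 ∈ A ∧ p.2 ∈ A ∧ p.1 + p.2 = n}.Nonempty := by
      by_contra h3
      rw [Set.not_nonempty_iff_eq_empty] at h3
      have := hn₀ n hn.1
      unfold rep at this
      rw [h3, Set.ncard_empty] at this
      omega
    obtain ⟨p, h3, h4, h5⟩ := h2
    rw [mem_image]
    refine ⟨p, ?_, h5⟩
    rw [mem_product, mem_up, mem_up]
    exact ⟨⟨by omega, h3⟩, by omega, h4⟩
  have h2 := (card_le_card h1).trans card_image_le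
  rw [Nat.card_Ico, card_product] at h2
  have h3 : (x : ℝ) ≤ (up A x).card * (up A x).card + n₀ := by exact_mod_cast (by omega : x ≤ (up A x).card * (up A x).card + n₀)
  have h4 : 2 * (n₀ : ℝ) ≤ x := by exact_mod_cast hx
  nlinarith

/-- the `n`-th element -/
noncomputable def elt (A : Set ℕ) (n : ℕ) : ℕ := Nat.nth (fun a => a ∈ A) (n - 1)

lemma grow2 (A : Set ℕ) (hinf : A.Infinite) (C : ℝ) (hC : ∀ n : ℕ, 1 ≤ n → (elt A n : ℝ) ≤ C * (n : ℝ) ^ 2) :
    ∃ c : ℝ, 0 < c ∧ ∀ᶠ x : ℕ in atTop, c * x ≤ ((up A x).card : ℝ) ^ 2 := by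
  classical
  have hinf' : (Set.ofPred (fun a => a ∈ A)).Infinite := hinf
  have h0 : ∀ x : ℕ, (x : ℝ) ≤ C * (((up A x).card : ℝ) + 1) ^ 2 := by
    intro x
    have h1 := Nat.le_nth_count hinf' x
    have h2 : Nat.count (fun a => a ∈ A) x = (up A x).card := by
      rw [Nat.count_eq_card_filter_range]
      unfold up
      congr 1
    rw [h2] at h1
    have h3 := hC ((up A x).card + 1) (by omega)
    unfold elt at h3
    rw [Nat.add_sub_cancel] at h3
    have h4 : (x : ℝ) ≤ (Nat.nth (fun a => a ∈ A) (up A x).card : ℝ) := by exact_mod_cast h1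
    push_cast at h3
    linarith
  have hC0 : 0 < C := by
    by_contra hcon
    have h1 := h0 1
    push_cast at h1
    have : 0 ≤ (((up A 1).card : ℝ) + 1) ^ 2 := by positivity
    nlinarith
  obtain ⟨a, ha⟩ := hinf.nonempty
  refine ⟨1 / (4 * C), by positivity, eventually_atTop.2 ⟨a + 1, fun x hx => ?_⟩⟩
  have h1 : 1 ≤ (up A x).card := card_pos.2 ⟨a, (mem_up A x a).2 ⟨by omega, ha⟩⟩
  have h2 : (1 : ℝ) ≤ (up A x).card := by exact_mod_cast h1
  have h3 := h0 x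
  rw [div_mul_eq_mul_div, one_mul, div_le_iff₀ (by positivity)]
  have h4 : (((up A x).card : ℝ) + 1) ^ 2 ≤ 4 * ((up A x).card : ℝ) ^ 2 := by nlinarith
  have h5 := mul_le_mul_of_nonneg_left h4 hC0.le
  linarith

/-- the growth condition of the two questions -/
def Grows (A : Set ℕ) : Prop := (∀ᶠ n in atTop, 1 ≤ rep A n) ∨ (A.Infinite ∧ ∃ C : ℝ, ∀ n : ℕ, 1 ≤ n → (elt A n : ℝ) ≤ C * (n : ℝ) ^ 2)

lemma grow (A : Set ℕ) (h : Grows A) : ∃ c : ℝ, 0 < c ∧ ∀ᶠ x : ℕ in atTop, c * x ≤ ((up A x).card : ℝ) ^ 2 := by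
  rcases h with h | ⟨hinf, C, hC⟩
  · exact grow1 A h
  · exact grow2 A hinf C hC

theorem part2 (A : Set ℕ) (hA : Grows A) (K : ℕ) (hK : ∀ n, rep A n ≤ K) :
    ∃ C : ℝ, ∀ x I : ℕ, ∑ i ∈ range (I + 1), (x : ℝ) / ((2 : ℝ) ^ i * (box (up A x) i : ℝ) ^ 2) ≤ C := by
  obtain ⟨c, hc, h⟩ := grow A hA
  obtain ⟨x₀, hx₀⟩ := eventually_atTop.1 h
  refine ⟨12 * K / c + 2 * x₀, fun x I => ?_⟩
  rcases le_or_gt x₀ x with hx | hx
  · have h1 := part1 A x I K (fun n _ => hK n)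
    have h2 := hx₀ x hx
    have h3 : ∀ i ∈ range (I + 1), (x : ℝ) / ((2 : ℝ) ^ i * (box (up A x) i : ℝ) ^ 2) ≤
        1 / c * (((up A x).card : ℝ) ^ 2 / ((2 : ℝ) ^ i * (box (up A x) i : ℝ) ^ 2)) := by
      intro i _
      rw [← mul_div_assoc]
      apply div_le_div_of_nonneg_right _ (by positivity)
      rw [div_mul_eq_mul_div, one_mul, le_div_iff₀ hc]
      linarith
    have h4 := sum_le_sum h3
    rw [← mul_sum] at h4
    have h5 : 1 / c * ∑ i ∈ range (I + 1), ((up A x).card : ℝ) ^ 2 / ((2 : ℝ) ^ i * (box (up A x) i : ℝ) ^ 2) ≤ 1 / c * (12 * K) :=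
      mul_le_mul_of_nonneg_left h1 (by positivity)
    have h6 : 1 / c * (12 * (K : ℝ)) = 12 * K / c := by ring
    have h7 : (0 : ℝ) ≤ 2 * x₀ := by positivity
    linarith
  · have h1 : ∀ i ∈ range (I + 1), (x : ℝ) / ((2 : ℝ) ^ i * (box (up A x) i : ℝ) ^ 2) ≤ x₀ * (1 / 2) ^ i := by
      intro i _
      have h2 : (x : ℝ) ≤ x₀ := by exact_mod_cast hx.le
      rcases Nat.eq_zero_or_pos (box (up A x) i) with h3 | h3
      · rw [h3]
        norm_num
      · have h4 : (1 : ℝ) ≤ box (up A x) i := by exact_mod_cast h3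
        have h5 : (2 : ℝ) ^ i * 1 ≤ 2 ^ i * (box (up A x) i : ℝ) ^ 2 :=
          mul_le_mul_of_nonneg_left (one_le_pow₀ h4) (by positivity)
        rw [mul_one] at h5
        calc (x : ℝ) / ((2 : ℝ) ^ i * (box (up A x) i : ℝ) ^ 2) ≤ x₀ / (2 : ℝ) ^ i := by
              apply div_le_div₀ (by positivity) h2 (by positivity) h5
          _ = _ := by rw [one_div, inv_pow]; rfl
    have h2 := sum_le_sum h1
    rw [← mul_sum] at h2
    have h3 : ∑ i ∈ range (I + 1), ((1 : ℝ) / 2) ^ i ≤ 2 := by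
      have := sum_geometric_two_le (I + 1)
      simpa using this
    have h4 := mul_le_mul_of_nonneg_left h3 (Nat.cast_nonneg (α := ℝ) x₀)
    have h5 : (0 : ℝ) ≤ 12 * K / c := by positivity
    linarith

open Classical in
/-- the set `B` is covered by few intervals at many scales below `x` -/
def Reg (B : Set ℕ) (T δ : ℝ) (x : ℕ) : Prop := δ * Real.log x ≤
  (((range (Nat.log 2 x + 1)).filter (fun i => (2 : ℝ) ^ i * (box (up B x) i : ℝ) ^ 2 ≤ T * x)).card : ℝ)

lemma rep_mono (A B : Set ℕ) (h : B ⊆ A) (n : ℕ) : rep B n ≤ rep A n := by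
  unfold rep
  apply Set.ncard_le_ncard _ (rep_fin A n)
  rintro p ⟨h1, h2, h3⟩
  exact ⟨h h1, h h2, h3⟩

theorem part3 (A B : Set ℕ) (hBA : B ⊆ A) (c T δ : ℝ) (hc : 0 < c) (hT : 0 < T) (hδ : 0 < δ)
    (h : ∃ᶠ x : ℕ in atTop, c * x ≤ ((up B x).card : ℝ) ^ 2 ∧ Reg B T δ x) :
    ∃ c : ℝ, 0 < c ∧ ∃ᶠ n : ℕ in atTop, c * Real.log n ≤ rep A n := by
  set κ : ℝ := c * δ / (12 * T) with hκ
  have hκ0 : 0 < κ := by positivity
  have key : ∃ᶠ x : ℕ in atTop, ∃ n < 2 * x, κ * Real.log x ≤ rep A n := by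
    have h1 := h.and_eventually (eventually_ge_atTop 1)
    refine h1.mono fun x hx => ?_
    obtain ⟨⟨hx2, hx1⟩, hx3⟩ := hx
    unfold Reg at hx1
    by_contra hcon
    push Not at hcon
    have hx0 : (0 : ℝ) < x := by exact_mod_cast hx3
    -- the maximum
    obtain ⟨m, hm1, hm2⟩ := exists_max_image (range (2 * x)) (rep A) ⟨0, mem_range.2 (by omega)⟩
    have h2 := part1 B x (Nat.log 2 x) (rep A m) (fun n hn => (rep_mono A B hBA n).trans (hm2 n (mem_range.2 hn)))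
    have h3 := hcon m (mem_range.1 hm1)
    set G := (range (Nat.log 2 x + 1)).filter (fun i => (2 : ℝ) ^ i * (box (up B x) i : ℝ) ^ 2 ≤ T * x) with hG
    have hcard : (0 : ℝ) < ((up B x).card : ℝ) ^ 2 := lt_of_lt_of_le (by positivity) hx2
    have hne : 0 < (up B x).card := by
      rcases Nat.eq_zero_or_pos (up B x).card with h | h
      · rw [h] at hcard
        norm_num at hcard
      · exact h
    have h4 : ∑ i ∈ G, c / T ≤ ∑ i ∈ range (Nat.log 2 x + 1), ((up B x).card : ℝ) ^ 2 / ((2 : ℝ) ^ i * (box (up B x) i : ℝ) ^ 2) := by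
      refine (sum_le_sum ?_).trans (sum_le_sum_of_subset_of_nonneg (filter_subset _ _) (fun _ _ _ => by positivity))
      intro i hi
      rw [hG, mem_filter] at hi
      have h5 : 0 < box (up B x) i := by
        unfold box
        rw [card_pos]
        exact (card_pos.1 hne).image _
      have h6 : (0 : ℝ) < box (up B x) i := by exact_mod_cast h5
      calc c / T = (c * x) / (T * x) := by field_simp
        _ ≤ _ := by
          apply div_le_div₀ (by positivity) hx2 (by positivity) hi.2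
    rw [sum_const, nsmul_eq_mul] at h4
    have h5 : (G.card : ℝ) * (c / T) ≤ 12 * rep A m := h4.trans h2
    have h6 : δ * Real.log x * (c / T) ≤ G.card * (c / T) := mul_le_mul_of_nonneg_right hx1 (by positivity)
    have h7 : 12 * (κ * Real.log x) = δ * Real.log x * (c / T) := by
      rw [hκ]
      field_simp
    linarith
  refine ⟨κ / 2, by positivity, ?_⟩
  rw [frequently_atTop] at key ⊢
  intro N
  have h1 : Tendsto (fun x : ℕ => κ * Real.log x) atTop atTop :=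
    (Real.tendsto_log_atTop.comp tendsto_natCast_atTop_atTop).const_mul_atTop hκ0
  obtain ⟨x₀, hx₀⟩ := eventually_atTop.1 (h1.eventually_ge_atTop ((N : ℝ) + 2))
  obtain ⟨x, hx, n, hn, hr⟩ := key (x₀ + 2)
  have h2 := hx₀ x (by omega)
  have h3 : rep A n ≤ n + 1 := by
    unfold rep
    have : {p : ℕ × ℕ | p.1 ∈ A ∧ p.2 ∈ A ∧ p.1 + p.2 = n}.ncard ≤ ((range (n + 1) : Finset ℕ) : Set ℕ).ncard := by
      apply Set.ncard_le_ncard_of_injOn Prod.fst
      · rintro ⟨a, b⟩ ⟨_, _, h⟩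
        simp only at h
        rw [mem_coe, mem_range]
        simp only
        omega
      · rintro ⟨a, b⟩ ⟨_, _, h⟩ ⟨a', b'⟩ ⟨_, _, h'⟩ h''
        simp only at h h' h''
        rw [Prod.mk.injEq]
        omega
    rw [Set.ncard_coe_finset, card_range] at this
    exact this
  have h4 : (rep A n : ℝ) ≤ n + 1 := by exact_mod_cast h3
  have h5 : (N : ℝ) ≤ n := by linarith
  refine ⟨n, by exact_mod_cast h5, ?_⟩
  refine le_trans ?_ hr
  have hn1 : (1 : ℝ) ≤ n := by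
    have : (0 : ℝ) ≤ N := Nat.cast_nonneg N
    linarith
  have hx2 : (2 : ℝ) ≤ x := by exact_mod_cast (by omega : 2 ≤ x)
  have h6 : Real.log n ≤ 2 * Real.log x := by
    have h7 : (n : ℝ) ≤ x * x := by
      have h8 : (n : ℝ) ≤ 2 * x := by exact_mod_cast hn.le
      nlinarith
    have h8 := Real.log_le_log (by linarith) h7
    rw [Real.log_mul (by linarith) (by linarith)] at h8
    linarith
  nlinarith

theorem part4 (A : Set ℕ) (hA : Grows A) (k : ℕ) (B : Fin k → Set ℕ) (hAB : A = ⋃ j, B j) (T δ : ℝ) (hT : 0 < T) (hδ : 0 < δ)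
    (h : ∃ᶠ x : ℕ in atTop, ∀ j, Reg (B j) T δ x) :
    ∃ c : ℝ, 0 < c ∧ ∃ᶠ n : ℕ in atTop, c * Real.log n ≤ rep A n := by
  obtain ⟨c, hc, hg⟩ := grow A hA
  have h1 := h.and_eventually (hg.and (eventually_ge_atTop 1))
  have h2 : ∃ᶠ x : ℕ in atTop, ∃ j, c / (k : ℝ) ^ 2 * x ≤ ((up (B j) x).card : ℝ) ^ 2 ∧ Reg (B j) T δ x := by
    refine h1.mono fun x hx => ?_
    obtain ⟨hx1, hx2, hx3⟩ := hx
    by_contra hcon
    push Not at hcon
    have hx0 : (0 : ℝ) < x := by exact_mod_cast hx3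
    have h3 : ∀ j, ((up (B j) x).card : ℝ) ^ 2 < c / (k : ℝ) ^ 2 * x := by
      intro j
      by_contra h4
      exact hcon j (not_lt.1 h4) (hx1 j)
    have h4 : up A x ⊆ univ.biUnion fun j => up (B j) x := by
      intro a ha
      rw [mem_up, hAB, Set.mem_iUnion] at ha
      obtain ⟨ha1, j, ha2⟩ := ha
      rw [mem_biUnion]
      exact ⟨j, mem_univ _, (mem_up _ _ _).2 ⟨ha1, ha2⟩⟩
    have h5 : ((up A x).card : ℝ) ≤ ∑ j : Fin k, ((up (B j) x).card : ℝ) := by
      exact_mod_cast (card_le_card h4).trans card_biUnion_le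
    have hk : 0 < k := by
      rcases Nat.eq_zero_or_pos k with h6 | h6
      · subst h6
        rw [univ_eq_empty, sum_empty] at h5
        have h7 : ((up A x).card : ℝ) ^ 2 ≤ 0 := by
          have : (0 : ℝ) ≤ (up A x).card := Nat.cast_nonneg _
          nlinarith
        have : 0 < c * x := by positivity
        linarith
      · exact h6
    have hk0 : (0 : ℝ) < k := by exact_mod_cast hk
    have h6 : (∑ j : Fin k, ((up (B j) x).card : ℝ)) ^ 2 ≤ k * ∑ j : Fin k, ((up (B j) x).card : ℝ) ^ 2 := by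
      have := sq_sum_le_card_mul_sum_sq (s := (univ : Finset (Fin k))) (f := fun j => ((up (B j) x).card : ℝ))
      rwa [card_univ, Fintype.card_fin] at this
    have h7 : ∑ j : Fin k, ((up (B j) x).card : ℝ) ^ 2 < ∑ _j : Fin k, c / (k : ℝ) ^ 2 * x := by
      apply sum_lt_sum_of_nonempty
      · exact ⟨⟨0, hk⟩, mem_univ _⟩
      · intro j _
        exact h3 j
    rw [sum_const, card_univ, Fintype.card_fin, nsmul_eq_mul] at h7
    have h8 : ((up A x).card : ℝ) ^ 2 ≤ (∑ j : Fin k, ((up (B j) x).card : ℝ)) ^ 2 := pow_le_pow_left₀ (Nat.cast_nonneg _) h5 2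
    have h9 : (k : ℝ) * (k * (c / (k : ℝ) ^ 2 * x)) = c * x := by field_simp
    have h10 := mul_lt_mul_of_pos_left h7 hk0
    linarith
  have h3 : ∃ j, ∃ᶠ x : ℕ in atTop, c / (k : ℝ) ^ 2 * x ≤ ((up (B j) x).card : ℝ) ^ 2 ∧ Reg (B j) T δ x := by
    by_contra hcon
    push Not at hcon
    apply h2
    have h4 : ∀ᶠ x : ℕ in atTop, ∀ j, c / (k : ℝ) ^ 2 * x ≤ ((up (B j) x).card : ℝ) ^ 2 → ¬ Reg (B j) T δ x := by
      rw [eventually_all]
      exact hcon
    filter_upwards [h4] with x hx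
    rintro ⟨j, hj1, hj2⟩
    exact hx j hj1 hj2
  obtain ⟨j, hj⟩ := h3
  have hk : 0 < k := Fin.pos j
  have hk0 : (0 : ℝ) < k := by exact_mod_cast hk
  exact part3 A (B j) (by rw [hAB]; exact Set.subset_iUnion _ _) (c / (k : ℝ) ^ 2) T δ (by positivity) hT hδ hj

end Pool.Agent.R509.ET
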