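import Pool.Agent.R509.ET.Fin

/-!
Library R509.ET (helper509): sets given by trees of digits.
-/

set_option autoImplicit false

namespace Pool.Agent.R509.ET

open Finset Filter

/-- In base `g ^ 2`, the digits which can follow given higher digits are restricted to `g` values: each interval
`[j g ^ (2 (i + 1)), (j + 1) g ^ (2 (i + 1)))` contains at most `g` of the intervals `[l g ^ (2 i), (l + 1) g ^ (2 i))`
that meet `B`. -/
def Tree (g : ℕ) (B : Set ℕ) : Prop := ∀ i j : ℕ, {l : ℕ | l / g ^ 2 = j ∧ ∃ b ∈ B, b / (g ^ 2) ^ i = l}.ncard ≤ g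

/-- the nodes at the level `l` -/
def node (S : Finset ℕ) (G l : ℕ) : Finset ℕ := S.image (fun b => b / G ^ l)

lemma node_top (S : Finset ℕ) (G m : ℕ) (hS : ∀ b ∈ S, b < G ^ m) : (node S G m).card ≤ 1 := by
  have : node S G m ⊆ {0} := by
    intro t ht
    unfold node at ht
    rw [mem_image] at ht
    obtain ⟨b, hb, rfl⟩ := ht
    rw [mem_singleton]
    exact Nat.div_eq_of_lt (hS b hb)
  exact (card_le_card this).trans (by simp)

lemma node_step (S : Finset ℕ) (g : ℕ) (hg : 1 ≤ g) (B : Set ℕ) (hB : Tree g B) (hS : ∀ b ∈ S, b ∈ B) (l : ℕ) :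
    (node S (g ^ 2) l).card ≤ g * (node S (g ^ 2) (l + 1)).card := by
  have hG : 0 < g ^ 2 := by positivity
  have h1 := card_eq_sum_card_fiberwise (f := fun t : ℕ => t / g ^ 2) (s := node S (g ^ 2) l) (t := node S (g ^ 2) (l + 1))
    (fun t ht => by
      rw [mem_coe] at ht ⊢
      unfold node at ht ⊢
      rw [mem_image] at ht ⊢
      obtain ⟨b, hb, rfl⟩ := ht
      exact ⟨b, hb, by simp only; rw [Nat.div_div_eq_div_mul, pow_succ]⟩)
  rw [h1, mul_comm, ← smul_eq_mul]
  apply sum_le_card_nsmul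
  intro j _
  refine le_trans ?_ (hB l j)
  rw [← Set.ncard_coe_finset]
  apply Set.ncard_le_ncard
  · intro t ht
    rw [mem_coe, mem_filter] at ht
    obtain ⟨h2, h3⟩ := ht
    unfold node at h2
    rw [mem_image] at h2
    obtain ⟨b, hb, h4⟩ := h2
    exact ⟨h3, b, hS b hb, h4⟩
  · apply Set.Finite.subset (finite_toSet (range ((j + 1) * g ^ 2)))
    rintro t ⟨h2, _⟩
    rw [mem_coe, mem_range]
    have := Nat.div_add_mod t (g ^ 2)
    have h3 := Nat.mod_lt t hG
    rw [h2] at this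
    rw [add_mul, one_mul, mul_comm j]
    omega

lemma node_le (S : Finset ℕ) (g : ℕ) (hg : 1 ≤ g) (B : Set ℕ) (hB : Tree g B) (hS : ∀ b ∈ S, b ∈ B) (m : ℕ)
    (hSm : ∀ b ∈ S, b < (g ^ 2) ^ m) (k : ℕ) (hk : k ≤ m) : (node S (g ^ 2) (m - k)).card ≤ g ^ k := by
  induction k with
  | zero => simpa using node_top S (g ^ 2) m hSm
  | succ k ih =>
    have h1 := ih (by omega)
    have h2 := node_step S g hg B hB hS (m - (k + 1))
    rw [show m - (k + 1) + 1 = m - k by omega] at h2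
    have h3 := h2.trans (Nat.mul_le_mul_left g h1)
    rwa [← Nat.pow_succ'] at h3

lemma box_node (S : Finset ℕ) (G l i : ℕ) (hG : 0 < G) (h : G ^ l ≤ 2 ^ i) : box S i ≤ 2 * (node S G l).card := by
  unfold box
  have h1 : S.image (fun a => a / 2 ^ i) ⊆ (node S G l).image (fun t => t * G ^ l / 2 ^ i) ∪
      (node S G l).image (fun t => t * G ^ l / 2 ^ i + 1) := by
    intro u hu
    rw [mem_image] at hu
    obtain ⟨a, ha, rfl⟩ := hu
    have hGl : 0 < G ^ l := by positivity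
    have h2p : 0 < 2 ^ i := by positivity
    have h2 : a / G ^ l ∈ node S G l := mem_image_of_mem _ ha
    set t := a / G ^ l with ht
    have h3 : t * G ^ l ≤ a := Nat.div_mul_le_self a _
    have h4 : a < t * G ^ l + 2 ^ i := by
      have := Nat.div_add_mod a (G ^ l)
      have h5 := Nat.mod_lt a hGl
      rw [mul_comm] at this
      rw [← ht] at this
      omega
    have h5 : t * G ^ l / 2 ^ i ≤ a / 2 ^ i := Nat.div_le_div_right h3
    have h6 : a / 2 ^ i ≤ t * G ^ l / 2 ^ i + 1 := by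
      rw [← Nat.add_div_right _ h2p]
      exact Nat.div_le_div_right h4.le
    rw [mem_union, mem_image, mem_image]
    rcases Nat.lt_or_ge (t * G ^ l / 2 ^ i) (a / 2 ^ i) with h7 | h7
    · right
      exact ⟨t, h2, by omega⟩
    · left
      exact ⟨t, h2, by omega⟩
  refine (card_le_card h1).trans ((card_union_le _ _).trans ?_)
  have h2 := card_image_le (s := node S G l) (f := fun t => t * G ^ l / 2 ^ i)
  have h3 := card_image_le (s := node S G l) (f := fun t => t * G ^ l / 2 ^ i + 1)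
  omega

lemma tree_reg (g : ℕ) (hg : 2 ≤ g) (B : Set ℕ) (hB : Tree g B) (x : ℕ) (hx : 1 ≤ x) (T : ℝ) (hT : 4 * (g : ℝ) ^ 4 ≤ T) :
    Reg B T 1 x := by
  classical
  unfold Reg
  have hall : (range (Nat.log 2 x + 1)).filter (fun i => (2 : ℝ) ^ i * (box (up B x) i : ℝ) ^ 2 ≤ T * x) = range (Nat.log 2 x + 1) := by
    rw [filter_eq_self]
    intro i hi
    rw [mem_range] at hi
    have hx0 : (0 : ℝ) < x := by exact_mod_cast hx
    set G := g ^ 2 with hG
    have hG1 : 1 < G := by rw [hG]; nlinarith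
    set m := Nat.log G x + 1 with hm
    have hm1 : x < G ^ m := Nat.lt_pow_succ_log_self hG1 x
    have hm2 : G ^ m ≤ G * x := by
      rw [hm, pow_succ, mul_comm]
      exact Nat.mul_le_mul_left G (Nat.pow_log_le_self G (by omega))
    have hi2 : 2 ^ i ≤ x := by
      have : 2 ^ i ≤ 2 ^ Nat.log 2 x := Nat.pow_le_pow_right (by norm_num) (by omega)
      exact this.trans (Nat.pow_log_le_self 2 (by omega))
    set l := Nat.log G (2 ^ i) with hl
    have hl1 : G ^ l ≤ 2 ^ i := Nat.pow_log_le_self G (by positivity)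
    have hl2 : 2 ^ i < G ^ (l + 1) := Nat.lt_pow_succ_log_self hG1 _
    have hlm : l ≤ m := by
      by_contra hcon
      have : G ^ m ≤ G ^ l := Nat.pow_le_pow_right (by omega) (by omega)
      omega
    have h1 := box_node (up B x) G l i (by omega) hl1
    have h2 := node_le (up B x) g (by omega) B hB (fun b hb => ((mem_up _ _ _).1 hb).2) m
      (fun b hb => lt_trans ((mem_up _ _ _).1 hb).1 hm1) (m - l) (by omega)
    rw [show m - (m - l) = l by omega] at h2
    have h3 : box (up B x) i ≤ 2 * g ^ (m - l) := h1.trans (Nat.mul_le_mul_left 2 h2)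
    have h4 : 2 ^ i * box (up B x) i ^ 2 ≤ G ^ (l + 1) * (2 * g ^ (m - l)) ^ 2 :=
      Nat.mul_le_mul hl2.le (Nat.pow_le_pow_left h3 2)
    have h5 : G ^ (l + 1) * (2 * g ^ (m - l)) ^ 2 = 4 * G * G ^ m := by
      have h6 : (g ^ (m - l)) ^ 2 = G ^ (m - l) := by rw [hG, ← pow_mul, ← pow_mul, mul_comm]
      have h7 : G ^ m = G ^ l * G ^ (m - l) := by rw [← pow_add]; congr 1; omega
      rw [mul_pow, h6, h7, pow_succ]
      ring
    have h6 : 2 ^ i * box (up B x) i ^ 2 ≤ 4 * G * (G * x) := by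
      rw [h5] at h4
      exact h4.trans (Nat.mul_le_mul_left _ hm2)
    have h7 : (2 : ℝ) ^ i * (box (up B x) i : ℝ) ^ 2 ≤ 4 * (g : ℝ) ^ 2 * ((g : ℝ) ^ 2 * x) := by
      have : ((2 ^ i * box (up B x) i ^ 2 : ℕ) : ℝ) ≤ ((4 * G * (G * x) : ℕ) : ℝ) := by exact_mod_cast h6
      rw [hG] at this
      push_cast at this
      exact this
    refine h7.trans ?_
    have h8 := mul_le_mul_of_nonneg_right hT hx0.le
    have h9 : 4 * (g : ℝ) ^ 2 * ((g : ℝ) ^ 2 * x) = 4 * (g : ℝ) ^ 4 * x := by ring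
    rw [h9]
    exact h8
  rw [hall, card_range, one_mul]
  have hx0 : (0 : ℝ) < x := by exact_mod_cast hx
  have h1 : x < 2 ^ (Nat.log 2 x + 1) := Nat.lt_pow_succ_log_self (by norm_num) x
  have h2 : (x : ℝ) ≤ 2 ^ (Nat.log 2 x + 1) := by exact_mod_cast h1.le
  have h3 := Real.log_le_log hx0 h2
  rw [Real.log_pow] at h3
  have h4 : Real.log 2 ≤ 1 := by
    have := Real.log_two_lt_d9
    linarith
  have h5 : (0 : ℝ) ≤ ((Nat.log 2 x + 1 : ℕ) : ℝ) := Nat.cast_nonneg _
  nlinarith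

theorem part5 (A : Set ℕ) (hA : Grows A) (k : ℕ) (B : Fin k → Set ℕ) (g : Fin k → ℕ) (hg : ∀ j, 2 ≤ g j)
    (hB : ∀ j, Tree (g j) (B j)) (hAB : A = ⋃ j, B j) :
    ∃ c : ℝ, 0 < c ∧ ∃ᶠ n : ℕ in atTop, c * Real.log n ≤ rep A n := by
  set T : ℝ := 1 + ∑ j, 4 * (g j : ℝ) ^ 4 with hT
  have hT0 : 0 < T := by positivity
  apply part4 A hA k B hAB T 1 hT0 one_pos
  apply Eventually.frequently
  filter_upwards [eventually_ge_atTop 1] with x hx j
  apply tree_reg (g j) (hg j) (B j) (hB j) x hx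
  have := single_le_sum (f := fun j => 4 * (g j : ℝ) ^ 4) (fun _ _ => by positivity) (mem_univ j)
  rw [hT]
  linarith

end Pool.Agent.R509.ET
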